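import Pool.Agent.Y757.HW.Top2

set_option autoImplicit false

/-! Pointwise bounds of the mass -/

namespace Pool.Agent.Y757.HW

open MeasureTheory Set Filter Topology Pool.Agent.Y757.LS Pool.Agent.Y757.EM Pool.Agent.Y757.LM
open scoped ENNReal

noncomputable section

lemma kop_growth {μ : Measure ℝ} {m : ℝ} (hμ : Good μ m) {f : ℝ → ℝ≥0∞} {A p : ℝ} (hA : 0 ≤ A)
    (hp0 : 0 ≤ p) (hp : p ≤ 2) (hf : ∀ t, f t ≤ ENNReal.ofReal (A * (1 + |t|) ^ p)) (t : ℝ) :
    Kop μ f t ≤ ENNReal.ofReal (A * (∫⁻ y, wt y ∂μ).toReal * (1 + |t|) ^ p) := by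
  unfold Kop
  have key : ∀ y : ℝ, f (t + y) ≤ ENNReal.ofReal (A * (1 + |t|) ^ p) * wt y := by
    intro y
    refine (hf (t + y)).trans ?_
    unfold wt
    rw [← ENNReal.ofReal_mul (by positivity)]
    apply ENNReal.ofReal_le_ofReal
    rw [mul_assoc]
    refine mul_le_mul_of_nonneg_left ?_ hA
    have ht := abs_nonneg t
    have hy := abs_nonneg y
    have h3 : 1 + |t + y| ≤ (1 + |t|) * (1 + |y|) := by
      have := abs_add_le t y
      nlinarith [mul_nonneg ht hy]
    calc (1 + |t + y|) ^ p ≤ ((1 + |t|) * (1 + |y|)) ^ p :=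
          Real.rpow_le_rpow (by positivity) h3 hp0
      _ = (1 + |t|) ^ p * (1 + |y|) ^ p := Real.mul_rpow (by positivity) (by positivity)
      _ ≤ (1 + |t|) ^ p * (1 + |y|) ^ (2:ℝ) := by
          refine mul_le_mul_of_nonneg_left ?_ (by positivity)
          exact Real.rpow_le_rpow_of_exponent_le (by linarith) hp
      _ = (1 + |t|) ^ p * (1 + |y|) ^ 2 := by rw [Real.rpow_two]
  refine (lintegral_mono key).trans ?_
  have e1 : A * (∫⁻ y, wt y ∂μ).toReal * (1 + |t|) ^ p = (A * (1 + |t|) ^ p) * (∫⁻ y, wt y ∂μ).toReal := by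
    ring
  rw [lintegral_const_mul _ wt_meas, e1, ENNReal.ofReal_mul (p := A * (1 + |t|) ^ p) (by positivity),
    ENNReal.ofReal_toReal hμ.mom]

theorem mass_growth (κ : ℝ) (hκ0 : 0 ≤ κ) (hκ1 : κ < 1) (hG : Growth κ) (e : ℝ) (he : 0 < e) :
    ∃ H0 : ℝ, 1 ≤ H0 ∧ ∀ H : ℝ, H0 ≤ H → ∃ t0 : ℝ, 1 ≤ t0 ∧ ∀ t : ℝ, t0 ≤ t →
      Mass t H ≤ (κ / (2 * Real.pi) + e) * H * Real.log t := by
  obtain ⟨C, hC, hdom⟩ := mass_dom 1 le_rfl
  have hpi := Real.pi_pos
  have hpi3 := Real.pi_gt_three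
  set ε : ℝ := min e (1 - κ) with hε
  have hε0 : 0 < ε := lt_min he (by linarith)
  have hεe : ε ≤ e := min_le_left _ _
  have hε1 : κ + ε ≤ 1 := by have := min_le_right e (1 - κ); rw [← hε] at this; linarith
  set δ : ℝ := min (1 / 4) (e / 4) with hδ
  have hδ0 : 0 < δ := lt_min (by norm_num) (by positivity)
  have hδ1 : δ ≤ 1 / 4 := min_le_left _ _
  have hδe : δ ≤ e / 4 := min_le_right _ _
  obtain ⟨C1', hC1'⟩ := hG ε hε0
  set C1 : ℝ := max C1' 0 with hC1d
  have hC10 : 0 ≤ C1 := le_max_right _ _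
  set p : ℝ := 2 * (κ + ε) with hp
  have hp0 : 0 ≤ p := by rw [hp]; linarith
  have hp2 : p ≤ 2 := by rw [hp]; linarith
  have hf : ∀ t, fk 1 t ≤ ENNReal.ofReal (C1 ^ 2 * (1 + |t|) ^ p) := by
    intro t
    unfold fk
    apply ENNReal.ofReal_le_ofReal
    have hne : pt 0 t ≠ 1 := by
      intro h
      have := congrArg Complex.re h
      rw [pt_re, Complex.one_re] at this
      norm_num at this
    have h1 : ‖GG (pt 0 t)‖ ≤ ‖riemannZeta (pt 0 t)‖ := by
      rw [GG_of_ne hne, norm_mul]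
      have := ratio_le (s := pt 0 t) (by rw [pt_re]; norm_num)
      exact mul_le_of_le_one_left (norm_nonneg _) this
    have h2 : ‖riemannZeta (pt 0 t)‖ ≤ C1 * (1 + |t|) ^ (κ + ε) := by
      rw [pt_w]
      refine (hC1' t).trans ?_
      gcongr
      exact le_max_left _ _
    have h3 : (0:ℝ) ≤ 1 + |t| := by positivity
    calc ‖GG (pt 0 t)‖ ^ (2 * 1) ≤ (C1 * (1 + |t|) ^ (κ + ε)) ^ 2 := by
          rw [mul_one]
          gcongr
          exact h1.trans h2
      _ = C1 ^ 2 * (1 + |t|) ^ p := by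
          rw [mul_pow, ← Real.rpow_natCast ((1 + |t|) ^ (κ + ε)) 2, ← Real.rpow_mul h3, hp]
          congr 2
          push_cast
          ring
  refine ⟨64 / δ ^ 2, ?_, fun H hH => ?_⟩
  · rw [le_div_iff₀ (by positivity)]
    nlinarith
  have hH1 : 1 ≤ H := by
    refine le_trans ?_ hH
    rw [le_div_iff₀ (by positivity)]
    nlinarith
  have hH0 : 0 < H := by linarith
  obtain ⟨c, hgood⟩ := kmu_good
  have hr : 0 ≤ H / 2 + δ * H / 8 := by positivity
  have h1 := kop_growth hgood (sq_nonneg C1) hp0 hp2 hf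
  have h2 := kop_growth (un_good hr) (by positivity) hp0 hp2 h1
  set A2 : ℝ := C1 ^ 2 * (∫⁻ y, wt y ∂kmu).toReal * (∫⁻ y, wt y ∂(un (H / 2 + δ * H / 8))).toReal with hA2
  have hA20 : 0 ≤ A2 := by positivity
  set D : ℝ := C * A2 + 1 with hD
  have hD1 : 1 ≤ D := by
    have : 0 ≤ C * A2 := by positivity
    linarith
  refine ⟨Real.exp ((Real.log D + p) / e + 1), Real.one_le_exp (by
    have : 0 ≤ Real.log D := Real.log_nonneg hD1
    positivity), fun t ht => ?_⟩
  have hq : 0 ≤ (Real.log D + p) / e := by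
    have : 0 ≤ Real.log D := Real.log_nonneg hD1
    positivity
  have ht1 : 1 ≤ t := (Real.one_le_exp (by linarith)).trans ht
  have htp : 0 < t := by linarith
  have hlt : (Real.log D + p) / e + 1 ≤ Real.log t := by rwa [Real.le_log_iff_exp_le htp]
  have hDt : Real.log D + p ≤ e * Real.log t := by
    have h3 : (Real.log D + p) / e ≤ Real.log t := by linarith
    rw [div_le_iff₀ he] at h3
    linarith
  have h3 := (hdom δ hδ0 (by linarith) H hH t).trans (mul_le_mul_right (h2 t) _)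
  rw [← ENNReal.ofReal_mul hC, ENNReal.ofReal_le_ofReal_iff (by positivity)] at h3
  rw [abs_of_pos htp] at h3
  have h4 : Real.exp ((1 - δ) * (4 * Real.pi * (1 : ℕ) / H * Mass t H)) ≤ D * (1 + t) ^ p := by
    refine h3.trans ?_
    rw [← mul_assoc]
    gcongr
    rw [hD]; linarith
  have h5 : (1 - δ) * (4 * Real.pi * (1 : ℕ) / H * Mass t H) ≤ Real.log D + p * Real.log (1 + t) := by
    have h6 : 0 < (1 + t) ^ p := Real.rpow_pos_of_pos (by linarith) _
    rw [← Real.log_rpow (by linarith), ← Real.log_mul (by linarith) h6.ne',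
      Real.le_log_iff_exp_le (by positivity)]
    exact h4
  have h6 : Real.log (1 + t) ≤ Real.log t + 1 := by
    have e1 : 1 + t = t * (1 + 1 / t) := by field_simp; ring
    rw [e1, Real.log_mul htp.ne' (by positivity)]
    have h7 := Real.log_le_sub_one_of_pos (show 0 < 1 + 1 / t by positivity)
    have h8 : 1 / t ≤ 1 := by rw [div_le_one htp]; exact ht1
    linarith
  have hlt0 : 0 ≤ Real.log t := Real.log_nonneg ht1
  have h7 : (1 - δ) * (4 * Real.pi / H * Mass t H) ≤ (p + e) * Real.log t := by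
    have h8 : p * Real.log (1 + t) ≤ p * (Real.log t + 1) := by gcongr
    have h9 : (1 - δ) * (4 * Real.pi * (1 : ℕ) / H * Mass t H) = (1 - δ) * (4 * Real.pi / H * Mass t H) := by
      push_cast; ring
    rw [h9] at h5
    nlinarith
  have h8 : p + e ≤ (1 - δ) * (4 * Real.pi) * (κ / (2 * Real.pi) + e) := by
    have e1 : (1 - δ) * (4 * Real.pi) * (κ / (2 * Real.pi) + e) =
        (1 - δ) * (2 * κ + 4 * Real.pi * e) := by
      field_simp
      ring
    rw [e1, hp]
    have e2 : 12 * e ≤ 4 * Real.pi * e := by nlinarith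
    nlinarith [mul_nonneg hκ0 hδ0.le, mul_nonneg (sub_nonneg.2 (hδ1.trans (by norm_num : (1:ℝ)/4 ≤ 1))) (sub_nonneg.2 e2)]
  have h9 : (1 - δ) * (4 * Real.pi / H * Mass t H) ≤
      (1 - δ) * (4 * Real.pi / H * ((κ / (2 * Real.pi) + e) * H * Real.log t)) := by
    calc _ ≤ (p + e) * Real.log t := h7
      _ ≤ ((1 - δ) * (4 * Real.pi) * (κ / (2 * Real.pi) + e)) * Real.log t := by gcongr
      _ = _ := by field_simp
  have h10 : 0 < 1 - δ := by linarith
  have h11 := le_of_mul_le_mul_left h9 h10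
  exact le_of_mul_le_mul_left h11 (by positivity)

theorem growth_sixth : Growth (1 / 6) := by
  intro ε hε
  obtain ⟨C, h⟩ := Pool.Agent.TH809.MZ.growth_weyl ε hε
  refine ⟨C, fun t => ?_⟩
  have e : (1 / 2 + t * Complex.I : ℂ) = ⟨1 / 2, t⟩ := by
    apply Complex.ext <;> simp
  rw [e]
  exact h t

end

end Pool.Agent.Y757.HW
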