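import Mathlib

set_option autoImplicit false

/-! Windows with many zeros: definitions -/

namespace Pool.Agent.Y757.HW

open MeasureTheory Set

noncomputable section

/-- the zeros of zeta with real part at least `σ` and imaginary part in the window
`[t - H / 2, t + H / 2]` -/
def Zw (σ t H : ℝ) : Set ℂ := {ρ : ℂ | riemannZeta ρ = 0 ∧ σ ≤ ρ.re ∧ |ρ.im - t| ≤ H / 2}

/-- their number, with multiplicity -/
def N (σ t H : ℝ) : ℝ := ∑ᶠ ρ ∈ Zw σ t H, (analyticOrderNatAt riemannZeta ρ : ℝ)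

/-- the sum of the distances to the critical line of the zeros in the window which lie right of it,
with multiplicity -/
def Mass (t H : ℝ) : ℝ :=
  ∑ᶠ ρ ∈ Zw (1 / 2) t H, (analyticOrderNatAt riemannZeta ρ : ℝ) * (ρ.re - 1 / 2)

/-- the weak bound for the moment of order `2 k` -/
def Moment (k : ℕ) : Prop := ∀ ε : ℝ, 0 < ε → ∃ A : ℝ, ∀ T : ℝ, 1 ≤ T →
  ∫ t in (1 : ℝ)..T, ‖riemannZeta (1 / 2 + t * Complex.I)‖ ^ (2 * k) ≤ A * T ^ (1 + ε)

/-- `|ζ(1/2 + it)| = O((1 + |t|)^(κ + ε))` for every `ε > 0` -/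
def Growth (κ : ℝ) : Prop := ∀ ε : ℝ, 0 < ε → ∃ C : ℝ, ∀ t : ℝ,
  ‖riemannZeta (1 / 2 + t * Complex.I)‖ ≤ C * (1 + |t|) ^ (κ + ε)

end

end Pool.Agent.Y757.HW
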