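import Mathlib

set_option autoImplicit false

/-! Windows with many zeros: elementary statements -/

namespace Pool.Agent.Y757.HW

open MeasureTheory Set

noncomputable section

/-- the square of the modulus of the reciprocal of the Blaschke factor of the half-plane -/
def q (x v : ℝ) : ℝ := ((1 + x) ^ 2 + v ^ 2) / ((1 - x) ^ 2 + v ^ 2)

/-- the kernel integral -/
def S_ker : Prop := ∀ x V : ℝ, 0 ≤ x → x ≤ 1 / 2 → 1 ≤ V →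
  4 * Real.pi * x - 16 * x / V ≤ ∫ v in (-V)..V, Real.log (q x v)

/-- Jensen's inequality in a window -/
def S_jen : Prop := ∀ (S : Finset ℂ) (m : ℂ → ℕ) (k : ℕ) (t H V : ℝ), 0 < H → 2 ≤ V →
  (∀ ρ ∈ S, 1 / 2 ≤ ρ.re ∧ ρ.re ≤ 1 ∧ |ρ.im - t| ≤ H / 2) →
  Real.exp (4 * Real.pi * k / (H + 2 * V) * (1 - 2 / V) * ∑ ρ ∈ S, (m ρ : ℝ) * (ρ.re - 1 / 2)) ≤
    (H + 2 * V)⁻¹ * ∫ u in (t - (H / 2 + V))..(t + (H / 2 + V)),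
      ∏ ρ ∈ S, q (ρ.re - 1 / 2) (u - ρ.im) ^ (k * m ρ)

/-- counting by integration -/
def S_cou : Prop := ∀ (S : Finset ℂ) (m : ℂ → ℕ) (M : ℝ) (E : Set ℝ), 0 ≤ M →
  (∀ ρ ∈ S, ∀ t : ℝ, |t - ρ.im| ≤ 1 / 2 → t ∈ E) →
  (∀ t : ℝ, (∑ ρ ∈ S.filter (fun ρ => |t - ρ.im| ≤ 1 / 2), (m ρ : ℝ)) ≤ M) →
  ENNReal.ofReal (∑ ρ ∈ S, (m ρ : ℝ)) ≤ ENNReal.ofReal M * volume E

/-- the number of zeros in a window -/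
def S_cnt : Prop := ∃ K : ℝ, 0 ≤ K ∧ ∀ H : ℝ, 1 ≤ H → ∃ B : ℝ, 0 ≤ B ∧ ∀ t : ℝ, 1 ≤ t →
  ∀ S : Finset ℂ, (∀ ρ ∈ S, riemannZeta ρ = 0 ∧ 0 < ρ.re ∧ ρ.re < 1 ∧ |ρ.im - t| ≤ H / 2) →
    ∑ ρ ∈ S, (analyticOrderNatAt riemannZeta ρ : ℝ) ≤ K * H * Real.log t + B

end

end Pool.Agent.Y757.HW
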