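import Pool.Agent.Y757.HW.Stm0
import Pool.Agent.Y757.HW.Def

set_option autoImplicit false

/-! The maximal number of zeros in a window: statements -/

namespace Pool.Agent.Y757.HW

open MeasureTheory Set
open scoped ComplexConjugate

noncomputable section

/-- symmetry of the zeros -/
def S_sym : Prop := ∀ ρ : ℂ, riemannZeta ρ = 0 → 0 < ρ.re → ρ.re < 1 →
  riemannZeta (1 - conj ρ) = 0 ∧
    analyticOrderNatAt riemannZeta (1 - conj ρ) = analyticOrderNatAt riemannZeta ρ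

/-- the Blaschke product for the half-plane `Re s > -1/4` -/
def S_bl2 : Prop := ∃ C : ℝ, 1 ≤ C ∧ ∀ t : ℝ, 1 ≤ t → ∀ S : Finset ℂ,
  (∀ ρ ∈ S, riemannZeta ρ = 0 ∧ 0 < ρ.re ∧ ρ.re < 1) →
    ∏ ρ ∈ S, q ((ρ.re + 1 / 4) / 3) ((t - ρ.im) / 3) ^ analyticOrderNatAt riemannZeta ρ ≤
      C * t ^ (3 / 2 : ℝ)

/-- the maximal number of zeros -/
def S_max : Prop := ∀ σ e : ℝ, 1 / 2 < σ → 0 < e → ∃ H0 : ℝ, 1 ≤ H0 ∧ ∀ H : ℝ, H0 ≤ H →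
  ∃ t0 : ℝ, 1 ≤ t0 ∧ ∀ t : ℝ, t0 ≤ t → N σ t H ≤ (1 / (4 * Real.pi) + e) * H * Real.log t

end

end Pool.Agent.Y757.HW
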