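import Pool.Agent.Y757.HW.Bla
import Pool.Agent.Y757.HW.Def
import Pool.Agent.Y757.LM.Disc
import Pool.Agent.Y657.HW.Ker
import Pool.Agent.Y765.HW.Jen
import Pool.Agent.Y219.HW.Cou
import Pool.Agent.Y338.HW.Cnt

set_option autoImplicit false

/-! Exponential moments of the mass of the zeros right of the critical line -/

namespace Pool.Agent.Y757.HW

open MeasureTheory Set Filter Topology Pool.Agent.Y757.LS Pool.Agent.Y757.EM Pool.Agent.Y757.LM
open scoped ENNReal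

noncomputable section

theorem p_jen : S_jen := Pool.Agent.Y765.HW.t_jen Pool.Agent.Y657.HW.t_ker

theorem p_cou : S_cou := Pool.Agent.Y219.HW.t_cou

theorem p_cnt : S_cnt := Pool.Agent.Y338.HW.t_cnt

lemma Zw_lt {σ t H : ℝ} {ρ : ℂ} (h : ρ ∈ Zw σ t H) : ρ.re < 1 := by
  by_contra hc
  exact riemannZeta_ne_zero_of_one_le_re (not_lt.1 hc) h.1

lemma Zw_fin {σ : ℝ} (t H : ℝ) : (Zw σ t H).Finite := by
  have hcomp : IsCompact (Icc σ 1 ×ℂ Icc (t - H / 2) (t + H / 2)) := isCompact_Icc.reProdIm isCompact_Icc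
  refine (zeta_compact hcomp).subset ?_
  intro s hs
  have h1 := Zw_lt hs
  obtain ⟨a1, a2, a3⟩ := hs
  have := abs_le.1 a3
  exact ⟨⟨⟨a2, h1.le⟩, ⟨by linarith, by linarith⟩⟩, a1⟩

lemma N_eq (σ t H : ℝ) : N σ t H = ∑ ρ ∈ (Zw_fin (σ := σ) t H).toFinset, (analyticOrderNatAt riemannZeta ρ : ℝ) := by
  unfold N
  rw [finsum_mem_eq_finite_toFinset_sum _ (Zw_fin t H)]

lemma Mass_eq (t H : ℝ) : Mass t H = ∑ ρ ∈ (Zw_fin (σ := 1 / 2) t H).toFinset,
    (analyticOrderNatAt riemannZeta ρ : ℝ) * (ρ.re - 1 / 2) := by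
  unfold Mass
  rw [finsum_mem_eq_finite_toFinset_sum _ (Zw_fin t H)]

lemma Mass_nonneg (t H : ℝ) : 0 ≤ Mass t H := by
  rw [Mass_eq]
  refine Finset.sum_nonneg fun ρ hρ => mul_nonneg (Nat.cast_nonneg _) ?_
  have := ((Zw_fin t H).mem_toFinset.1 hρ).2.1
  linarith

lemma N_le_Mass {σ : ℝ} (hσ : 1 / 2 ≤ σ) (t H : ℝ) : (σ - 1 / 2) * N σ t H ≤ Mass t H := by
  classical
  rw [Mass_eq, N_eq, Finset.mul_sum]
  have hsub : (Zw_fin (σ := σ) t H).toFinset ⊆ (Zw_fin (σ := 1 / 2) t H).toFinset := by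
    intro ρ hρ
    rw [Set.Finite.mem_toFinset] at hρ ⊢
    exact ⟨hρ.1, hσ.trans hρ.2.1, hρ.2.2⟩
  refine (Finset.sum_le_sum fun ρ hρ => ?_).trans (Finset.sum_le_sum_of_subset_of_nonneg hsub fun ρ hρ _ => ?_)
  · have := ((Zw_fin t H).mem_toFinset.1 hρ).2.1
    rw [mul_comm]
    gcongr
  · have := ((Zw_fin t H).mem_toFinset.1 hρ).2.1
    exact mul_nonneg (Nat.cast_nonneg _) (by linarith)

lemma fk_meas (k : ℕ) : Measurable (fk k) := by
  unfold fk
  have hmG : Measurable (fun y : ℝ => GG (pt 0 y)) := GG_measurable.comp (by unfold pt; fun_prop)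
  fun_prop

/-- the basic domination -/
theorem mass_dom (k : ℕ) (hk : 1 ≤ k) : ∃ C : ℝ, 0 ≤ C ∧ ∀ δ : ℝ, 0 < δ → δ < 1 → ∀ H : ℝ, 64 / δ ^ 2 ≤ H →
    ∀ t : ℝ, ENNReal.ofReal (Real.exp ((1 - δ) * (4 * Real.pi * k / H * Mass t H))) ≤
      ENNReal.ofReal C * Kop (un (H / 2 + δ * H / 8)) (Kop kmu (fk k)) t := by
  classical
  obtain ⟨C, hC, hbla⟩ := bla k hk
  refine ⟨C, hC, fun δ hδ hδ1 H hH t => ?_⟩
  have hδ2 : δ ^ 2 ≤ 1 := by nlinarith
  have hH64 : 64 ≤ H := by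
    refine le_trans ?_ hH
    rw [le_div_iff₀ (by positivity)]
    nlinarith
  have hHδ : 64 ≤ H * δ ^ 2 := by
    rwa [div_le_iff₀ (by positivity)] at hH
  have hH0 : 0 < H := by linarith
  set V : ℝ := δ * H / 8 with hV
  have hδH : 64 ≤ δ * H := by nlinarith [mul_pos hδ hH0]
  have hV2 : 2 ≤ V := by rw [hV]; linarith
  have hV0 : 0 < V := by linarith
  set S : Finset ℂ := (Zw_fin (σ := 1 / 2) t H).toFinset.filter (fun ρ => 1 / 2 < ρ.re) with hS
  have hSm : ∀ ρ ∈ S, riemannZeta ρ = 0 ∧ 1 / 2 < ρ.re ∧ ρ.re < 1 ∧ |ρ.im - t| ≤ H / 2 := by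
    intro ρ hρ
    rw [hS, Finset.mem_filter, Set.Finite.mem_toFinset] at hρ
    exact ⟨hρ.1.1, hρ.2, Zw_lt hρ.1, hρ.1.2.2⟩
  have hMass : Mass t H = ∑ ρ ∈ S, (analyticOrderNatAt riemannZeta ρ : ℝ) * (ρ.re - 1 / 2) := by
    rw [Mass_eq, hS, Finset.sum_filter]
    refine Finset.sum_congr rfl fun ρ hρ => ?_
    have h1 := ((Zw_fin t H).mem_toFinset.1 hρ).2.1
    split_ifs with h2
    · rfl
    · have : ρ.re = 1 / 2 := le_antisymm (not_lt.1 h2) h1
      rw [this, sub_self, mul_zero]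
  have hjen := p_jen S (analyticOrderNatAt riemannZeta) k t H V hH0 hV2 (fun ρ hρ => by
    obtain ⟨_, h2, h3, h4⟩ := hSm ρ hρ
    exact ⟨h2.le, h3.le, h4⟩)
  rw [← hMass] at hjen
  have hM := Mass_nonneg t H
  have hpi := Real.pi_pos
  -- the exponent
  have hexp : (1 - δ) * (4 * Real.pi * k / H * Mass t H) ≤
      4 * Real.pi * k / (H + 2 * V) * (1 - 2 / V) * Mass t H := by
    have h1 : (1 - δ) / H ≤ 1 / (H + 2 * V) * (1 - 2 / V) := by
      have e1 : H + 2 * V = H * (1 + δ / 4) := by rw [hV]; ring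
      have h2 : 2 / V ≤ δ / 4 := by
        rw [div_le_iff₀ hV0, hV]
        nlinarith
      rw [e1, one_div, mul_inv, div_eq_mul_inv, mul_comm (1 - δ), mul_assoc]
      refine mul_le_mul_of_nonneg_left ?_ (by positivity)
      rw [← div_eq_inv_mul, le_div_iff₀ (by positivity)]
      nlinarith
    calc (1 - δ) * (4 * Real.pi * k / H * Mass t H) = (4 * Real.pi * k * Mass t H) * ((1 - δ) / H) := by ring
      _ ≤ (4 * Real.pi * k * Mass t H) * (1 / (H + 2 * V) * (1 - 2 / V)) := by gcongr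
      _ = _ := by ring
  set r : ℝ := H / 2 + V with hr
  have hr0 : 0 < r := by rw [hr]; positivity
  set P : ℝ → ℝ := fun u => ∏ ρ ∈ S, q (ρ.re - 1 / 2) (u - ρ.im) ^ (k * analyticOrderNatAt riemannZeta ρ) with hP
  have hP0 : ∀ u, 0 ≤ P u := fun u => Finset.prod_nonneg fun ρ hρ =>
    pow_nonneg (zero_le_one.trans (one_le_q (by linarith [(hSm ρ hρ).2.1]) (by linarith [(hSm ρ hρ).2.2.1]))) _
  have hqc : ∀ x : ℝ, x < 1 → Continuous (fun v : ℝ => q x v) := by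
    intro x hx
    unfold q
    refine Continuous.div (by fun_prop) (by fun_prop) fun v => ?_
    have : 0 < (1 - x) ^ 2 := by have := sub_pos.2 hx; positivity
    nlinarith [sq_nonneg v]
  have hPc : Continuous P := by
    rw [hP]
    refine continuous_finsetProd _ fun ρ hρ => ?_
    exact ((hqc (ρ.re - 1 / 2) (by linarith [(hSm ρ hρ).2.2.1])).comp (by fun_prop : Continuous fun u : ℝ => u - ρ.im)).pow _
  have h1 : ENNReal.ofReal (Real.exp ((1 - δ) * (4 * Real.pi * k / H * Mass t H))) ≤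
      ENNReal.ofReal ((H + 2 * V)⁻¹ * ∫ u in (t - r)..(t + r), P u) :=
    ENNReal.ofReal_le_ofReal ((Real.exp_le_exp.2 hexp).trans hjen)
  refine h1.trans ?_
  have h2 : (H + 2 * V)⁻¹ ≤ 1 := inv_le_one_of_one_le₀ (by linarith)
  have hI0 : 0 ≤ ∫ u in (t - r)..(t + r), P u :=
    intervalIntegral.integral_nonneg (by linarith) fun u _ => hP0 u
  have h3 : ENNReal.ofReal ((H + 2 * V)⁻¹ * ∫ u in (t - r)..(t + r), P u) ≤
      ENNReal.ofReal (∫ u in (t - r)..(t + r), P u) :=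
    ENNReal.ofReal_le_ofReal (by nlinarith)
  refine h3.trans ?_
  rw [intervalIntegral.integral_of_le (by linarith), ofReal_integral_eq_lintegral_ofReal
    (hPc.integrableOn_Ioc) (Eventually.of_forall fun u => hP0 u)]
  have h4 : ∫⁻ u in Ioc (t - r) (t + r), ENNReal.ofReal (P u) ≤
      ∫⁻ u in Icc (t - r) (t + r), ENNReal.ofReal C * Kop kmu (fk k) u := by
    refine (lintegral_mono_set Ioc_subset_Icc_self).trans (lintegral_mono fun u => ?_)
    exact hbla u S fun ρ hρ => ⟨(hSm ρ hρ).1, (hSm ρ hρ).2.1, (hSm ρ hρ).2.2.1⟩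
  refine h4.trans ?_
  rw [lintegral_const_mul' _ _ ENNReal.ofReal_ne_top]
  refine mul_le_mul_right ?_ _
  -- translation
  have hm : Measurable (Kop kmu (fk k)) := Kop_meas (fk_meas k)
  have h5 : ∫⁻ y in Icc (-r) r, Kop kmu (fk k) (t + y) = ∫⁻ u in Icc (t - r) (t + r), Kop kmu (fk k) u := by
    have h6 := (measurePreserving_add_left volume t).setLIntegral_comp_preimage
      (s := Icc (t - r) (t + r)) measurableSet_Icc hm
    have e : (fun x => t + x) ⁻¹' Icc (t - r) (t + r) = Icc (-r) r := by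
      ext x
      simp only [mem_preimage, mem_Icc]
      constructor <;> rintro ⟨a, b⟩ <;> constructor <;> linarith
    rw [e] at h6
    exact h6
  rw [← h5]
  exact le_rfl

end

end Pool.Agent.Y757.HW
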