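import Pool.Agent.Y757.HW.Top

set_option autoImplicit false

/-! Exponential moments, measure and number of the windows with many zeros -/

namespace Pool.Agent.Y757.HW

open MeasureTheory Set Filter Topology Pool.Agent.Y757.LS Pool.Agent.Y757.EM Pool.Agent.Y757.LM
open scoped ENNReal

noncomputable section

lemma N_cnt : ∃ K : ℝ, 0 ≤ K ∧ ∀ H : ℝ, 1 ≤ H → ∃ B : ℝ, 0 ≤ B ∧ ∀ t : ℝ, 1 ≤ t → ∀ σ : ℝ, 1 / 2 ≤ σ →
    N σ t H ≤ K * H * Real.log t + B := by
  obtain ⟨K, hK, h⟩ := p_cnt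
  refine ⟨K, hK, fun H hH => ?_⟩
  obtain ⟨B, hB, hb⟩ := h H hH
  refine ⟨B, hB, fun t ht σ hσ => ?_⟩
  rw [N_eq]
  refine hb t ht _ fun ρ hρ => ?_
  rw [Set.Finite.mem_toFinset] at hρ
  exact ⟨hρ.1, by linarith [hρ.2.1], Zw_lt hρ, hρ.2.2⟩

lemma Mass_le_N (t H : ℝ) : Mass t H ≤ N (1 / 2) t H := by
  rw [Mass_eq, N_eq]
  refine Finset.sum_le_sum fun ρ hρ => ?_
  have h1 := Zw_lt ((Zw_fin t H).mem_toFinset.1 hρ)
  have h2 : (0:ℝ) ≤ analyticOrderNatAt riemannZeta ρ := Nat.cast_nonneg _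
  nlinarith

/-- domination by a measurable function -/
theorem dom_final (k : ℕ) (hk : 1 ≤ k) (hyp : HypK k) (e : ℝ) (he : 0 < e) :
    ∃ H0 : ℝ, 1 ≤ H0 ∧ ∀ H : ℝ, H0 ≤ H → ∃ T0 : ℝ, 1 ≤ T0 ∧ ∀ T : ℝ, T0 ≤ T →
      ∃ Φ : ℝ → ℝ≥0∞, Measurable Φ ∧
        (∀ t : ℝ, 1 ≤ t → t ≤ T → ENNReal.ofReal (Real.exp (4 * Real.pi * k / H * Mass t H)) ≤ Φ t) ∧
        ∫⁻ t in Icc 1 T, Φ t ≤ ENNReal.ofReal (T ^ (1 + e)) := by
  obtain ⟨K, hK, hcnt⟩ := N_cnt
  obtain ⟨C, hC, hdom⟩ := mass_dom k hk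
  have hpi := Real.pi_pos
  have hk0 : (0:ℝ) < k := by exact_mod_cast hk
  set δ : ℝ := min (1 / 2) (e / (16 * Real.pi * k * (K + 1))) with hδ
  have hδ0 : 0 < δ := lt_min (by norm_num) (by positivity)
  have hδ1 : δ < 1 := (min_le_left _ _).trans_lt (by norm_num)
  have hδK : 4 * Real.pi * k * δ * K ≤ e / 4 := by
    have h1 : δ ≤ e / (16 * Real.pi * k * (K + 1)) := min_le_right _ _
    rw [le_div_iff₀ (by positivity)] at h1
    have h2 : 0 ≤ 16 * Real.pi * k * δ := by positivity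
    nlinarith
  refine ⟨64 / δ ^ 2, ?_, fun H hH => ?_⟩
  · rw [le_div_iff₀ (by positivity)]
    nlinarith
  have hH1 : 1 ≤ H := by
    refine le_trans ?_ hH
    rw [le_div_iff₀ (by positivity)]
    nlinarith
  have hH0 : 0 < H := by linarith
  obtain ⟨B, hB, hcntH⟩ := hcnt H hH1
  set ε' : ℝ := min (e / 4) 1 with hε'
  have hε'0 : 0 < ε' := lt_min (by positivity) one_pos
  have hε'1 : ε' ≤ 1 := min_le_right _ _
  have hε'2 : ε' ≤ e / 4 := min_le_left _ _
  obtain ⟨A, hA, hPB⟩ := hyp ε' hε'0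
  obtain ⟨c, hgood⟩ := kmu_good
  have hPB1 := PB.kop le_rfl hgood (fk_meas k) hA (by linarith : 0 ≤ 1 + ε') (by linarith) hPB
  have hr : 0 ≤ H / 2 + δ * H / 8 := by positivity
  have hm1 : Measurable (Kop kmu (fk k)) := Kop_meas (fk_meas k)
  have hPB2 := PB.kop le_rfl (un_good hr) hm1 (by positivity) (by linarith : 0 ≤ 1 + ε') (by linarith) hPB1
  set A2 : ℝ := A * (∫⁻ y, wt y ∂kmu).toReal * (∫⁻ y, wt y ∂(un (H / 2 + δ * H / 8))).toReal with hA2
  have hA20 : 0 ≤ A2 := by positivity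
  set Ψ : ℝ → ℝ≥0∞ := Kop (un (H / 2 + δ * H / 8)) (Kop kmu (fk k)) with hΨ
  have hfin := (un_good hr).finite
  have hΨm : Measurable Ψ := Kop_meas hm1
  set D : ℝ := C * Real.exp (4 * Real.pi * k * δ * B / H) with hD
  have hD0 : 0 ≤ D := by positivity
  set D2 : ℝ := D * (A2 * 4) + 1 with hD2
  have hD21 : 1 ≤ D2 := by
    have : 0 ≤ D * (A2 * 4) := by positivity
    linarith
  refine ⟨D2 ^ (2 / e), Real.one_le_rpow hD21 (by positivity), fun T hT => ?_⟩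
  have hT1 : 1 ≤ T := (Real.one_le_rpow hD21 (by positivity)).trans hT
  have hT0 : 0 < T := by linarith
  refine ⟨fun t => ENNReal.ofReal (D * T ^ (e / 4)) * Ψ t, hΨm.const_mul _, fun t ht1 htT => ?_, ?_⟩
  · -- pointwise
    have hX : δ * (4 * Real.pi * k / H * Mass t H) ≤ e / 4 * Real.log T + 4 * Real.pi * k * δ * B / H := by
      have h1 : Mass t H ≤ K * H * Real.log t + B := (Mass_le_N t H).trans (hcntH t ht1 _ le_rfl)
      have h2 : Real.log t ≤ Real.log T := Real.log_le_log (by linarith) htT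
      have h3 : 0 ≤ Real.log t := Real.log_nonneg ht1
      calc δ * (4 * Real.pi * k / H * Mass t H)
          ≤ δ * (4 * Real.pi * k / H * (K * H * Real.log t + B)) := by gcongr
        _ = (4 * Real.pi * k * δ * K) * Real.log t + 4 * Real.pi * k * δ * B / H := by
            field_simp
        _ ≤ e / 4 * Real.log T + _ := by gcongr
    have e1 : Real.exp (4 * Real.pi * k / H * Mass t H) =
        Real.exp ((1 - δ) * (4 * Real.pi * k / H * Mass t H)) * Real.exp (δ * (4 * Real.pi * k / H * Mass t H)) := by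
      rw [← Real.exp_add]; congr 1; ring
    have e2 : Real.exp (e / 4 * Real.log T + 4 * Real.pi * k * δ * B / H) =
        T ^ (e / 4) * Real.exp (4 * Real.pi * k * δ * B / H) := by
      rw [Real.exp_add, Real.rpow_def_of_pos hT0, mul_comm (Real.log T)]
    rw [e1, ENNReal.ofReal_mul (Real.exp_pos _).le]
    calc _ ≤ (ENNReal.ofReal C * Ψ t) * ENNReal.ofReal (T ^ (e / 4) * Real.exp (4 * Real.pi * k * δ * B / H)) := by
          refine mul_le_mul' (hdom δ hδ0 hδ1 H hH t) (ENNReal.ofReal_le_ofReal ?_)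
          rw [← e2]
          exact Real.exp_le_exp.2 hX
      _ = ENNReal.ofReal (D * T ^ (e / 4)) * Ψ t := by
          rw [mul_comm (ENNReal.ofReal C), mul_assoc, ← ENNReal.ofReal_mul hC, mul_comm (Ψ t)]
          congr 2
          rw [hD]; ring
  · rw [lintegral_const_mul' _ _ ENNReal.ofReal_ne_top]
    have h1 : ∫⁻ t in Icc 1 T, Ψ t ≤ ENNReal.ofReal (A2 * (1 + T) ^ (1 + ε')) :=
      (lintegral_mono_set (Icc_subset_Icc_left (by linarith))).trans (hPB2 T (by linarith))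
    calc ENNReal.ofReal (D * T ^ (e / 4)) * ∫⁻ t in Icc 1 T, Ψ t
        ≤ ENNReal.ofReal (D * T ^ (e / 4)) * ENNReal.ofReal (A2 * (1 + T) ^ (1 + ε')) := by gcongr
      _ = ENNReal.ofReal (D * T ^ (e / 4) * (A2 * (1 + T) ^ (1 + ε'))) := by
          rw [← ENNReal.ofReal_mul (by positivity)]
      _ ≤ _ := by
          apply ENNReal.ofReal_le_ofReal
          have h2 : (1 + T) ^ (1 + ε') ≤ 4 * T ^ (1 + e / 4) := by
            calc (1 + T) ^ (1 + ε') ≤ (2 * T) ^ (1 + ε') :=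
                  Real.rpow_le_rpow (by positivity) (by linarith) (by linarith)
              _ = 2 ^ (1 + ε') * T ^ (1 + ε') := Real.mul_rpow (by norm_num) hT0.le
              _ ≤ 2 ^ (2:ℝ) * T ^ (1 + e / 4) := by
                  gcongr
                  · norm_num
                  · linarith
              _ = _ := by norm_num
          have h3 : D2 ≤ T ^ (e / 2) := by
            have h4 : D2 = (D2 ^ (2 / e)) ^ (e / 2) := by
              rw [← Real.rpow_mul (by linarith)]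
              rw [show 2 / e * (e / 2) = 1 by field_simp, Real.rpow_one]
            rw [h4]
            exact Real.rpow_le_rpow (by positivity) hT (by positivity)
          calc D * T ^ (e / 4) * (A2 * (1 + T) ^ (1 + ε'))
              ≤ D * T ^ (e / 4) * (A2 * (4 * T ^ (1 + e / 4))) := by gcongr
            _ = (D * (A2 * 4)) * (T ^ (e / 4) * T ^ (1 + e / 4)) := by ring
            _ ≤ D2 * (T ^ (e / 4) * T ^ (1 + e / 4)) := by
                gcongr
                rw [hD2]; linarith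
            _ ≤ T ^ (e / 2) * (T ^ (e / 4) * T ^ (1 + e / 4)) := by gcongr
            _ = T ^ (1 + e) := by
                rw [← Real.rpow_add hT0, ← Real.rpow_add hT0]
                congr 1
                ring

/-- **exponential moments of the mass** -/
theorem exp_mass (k : ℕ) (hk : 1 ≤ k) (hyp : HypK k) (e : ℝ) (he : 0 < e) :
    ∃ H0 : ℝ, 1 ≤ H0 ∧ ∀ H : ℝ, H0 ≤ H → ∃ T0 : ℝ, 1 ≤ T0 ∧ ∀ T : ℝ, T0 ≤ T →
      ∫⁻ t in Icc 1 T, ENNReal.ofReal (Real.exp (4 * Real.pi * k / H * Mass t H)) ≤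
        ENNReal.ofReal (T ^ (1 + e)) := by
  obtain ⟨H0, hH0, h⟩ := dom_final k hk hyp e he
  refine ⟨H0, hH0, fun H hH => ?_⟩
  obtain ⟨T0, hT0, h1⟩ := h H hH
  refine ⟨T0, hT0, fun T hT => ?_⟩
  obtain ⟨Φ, _, h2, h3⟩ := h1 T hT
  refine le_trans ?_ h3
  exact setLIntegral_mono' measurableSet_Icc fun t ht => h2 t ht.1 ht.2

/-- **measure of the set of the windows with many zeros** -/
theorem meas_N (k : ℕ) (hk : 1 ≤ k) (hyp : HypK k) (e : ℝ) (he : 0 < e) :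
    ∃ H0 : ℝ, 1 ≤ H0 ∧ ∀ H : ℝ, H0 ≤ H → ∃ T0 : ℝ, 1 ≤ T0 ∧ ∀ T : ℝ, T0 ≤ T →
      ∀ σ η : ℝ, 1 / 2 ≤ σ →
        volume {t : ℝ | 1 ≤ t ∧ t ≤ T ∧ η * H * Real.log T ≤ N σ t H} ≤
          ENNReal.ofReal (T ^ (1 - 2 * Real.pi * k * η * (2 * σ - 1) + e)) := by
  obtain ⟨H0, hH0, h⟩ := dom_final k hk hyp e he
  refine ⟨H0, hH0, fun H hH => ?_⟩
  obtain ⟨T0, hT0, h1⟩ := h H hH
  refine ⟨T0, hT0, fun T hT σ η hσ => ?_⟩
  obtain ⟨Φ, hΦ, h2, h3⟩ := h1 T hT
  have hT1 : 1 ≤ T := hT0.trans hT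
  have hTp : 0 < T := by linarith
  have hHp : 0 < H := by linarith
  set a : ℝ := 2 * Real.pi * k * η * (2 * σ - 1) with ha
  have hsub : {t : ℝ | 1 ≤ t ∧ t ≤ T ∧ η * H * Real.log T ≤ N σ t H} ⊆
      {t : ℝ | ENNReal.ofReal (T ^ a) ≤ Φ t} ∩ Icc 1 T := by
    rintro t ⟨ht1, htT, htN⟩
    refine ⟨?_, ht1, htT⟩
    refine le_trans (ENNReal.ofReal_le_ofReal ?_) (h2 t ht1 htT)
    rw [Real.rpow_def_of_pos hTp]
    apply Real.exp_le_exp.2
    have h4 := N_le_Mass hσ t H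
    have h5 : (σ - 1 / 2) * (η * H * Real.log T) ≤ Mass t H :=
      (mul_le_mul_of_nonneg_left htN (by linarith)).trans h4
    calc Real.log T * a = 4 * Real.pi * k / H * ((σ - 1 / 2) * (η * H * Real.log T)) := by
          rw [ha]; field_simp
          ring
      _ ≤ _ := by gcongr
  have h6 := mul_meas_ge_le_lintegral (μ := volume.restrict (Icc 1 T)) hΦ (ENNReal.ofReal (T ^ a))
  have h7 : volume.restrict (Icc 1 T) {t : ℝ | ENNReal.ofReal (T ^ a) ≤ Φ t} =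
      volume ({t : ℝ | ENNReal.ofReal (T ^ a) ≤ Φ t} ∩ Icc 1 T) :=
    Measure.restrict_apply (measurableSet_le measurable_const hΦ)
  rw [h7] at h6
  refine (measure_mono hsub).trans ?_
  have h8 : ENNReal.ofReal (T ^ a) * volume ({t : ℝ | ENNReal.ofReal (T ^ a) ≤ Φ t} ∩ Icc 1 T) ≤
      ENNReal.ofReal (T ^ (1 + e)) := h6.trans h3
  have ha0 : 0 < T ^ a := Real.rpow_pos_of_pos hTp _
  have h9 : ENNReal.ofReal (T ^ (1 - a + e)) = ENNReal.ofReal (T ^ (1 + e)) / ENNReal.ofReal (T ^ a) := by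
    rw [← ENNReal.ofReal_div_of_pos ha0, ← Real.rpow_sub hTp]
    congr 2
    ring
  rw [h9, ENNReal.le_div_iff_mul_le (Or.inl (by positivity)) (Or.inl ENNReal.ofReal_ne_top), mul_comm]
  exact h8

end

end Pool.Agent.Y757.HW
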