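import Pool.Agent.Y757.HW.Top2

set_option autoImplicit false

/-! The number of the zeros in the windows with many zeros; pointwise bounds -/

namespace Pool.Agent.Y757.HW

open MeasureTheory Set Filter Topology Pool.Agent.Y757.LS Pool.Agent.Y757.EM Pool.Agent.Y757.LM
open scoped ENNReal

noncomputable section

lemma N_mono {σ t t' H H' : ℝ} (h : |t - t'| + H / 2 ≤ H' / 2) : N σ t H ≤ N σ t' H' := by
  classical
  rw [N_eq, N_eq]
  refine Finset.sum_le_sum_of_subset_of_nonneg ?_ fun _ _ _ => Nat.cast_nonneg _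
  intro ρ hρ
  rw [Set.Finite.mem_toFinset] at hρ ⊢
  refine ⟨hρ.1, hρ.2.1, ?_⟩
  have h1 : |ρ.im - t'| ≤ |ρ.im - t| + |t - t'| := abs_sub_le _ _ _
  linarith [hρ.2.2]

lemma final_cmp {e K B T c c0 : ℝ} (he : 0 < e) (hK : 0 ≤ K) (hB : 0 ≤ B) (hT1 : 1 ≤ T)
    (hTD : (2 ^ (1 + e) * (K * (1 + 8 / e) + B) + 1) ^ (8 / e) ≤ T) (hc2 : c ≤ 1 + e) (hc1 : c0 ≤ c) :
    (K * 1 * Real.log (T + 1) + B) * (T + 1) ^ c0 ≤ T ^ (c + e / 4) := by
  have hTp : 0 < T := by linarith
  have hK0 : 0 ≤ K * (1 + 8 / e) + B := by positivity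
  obtain ⟨D, hD⟩ : ∃ D : ℝ, D = 2 ^ (1 + e) * (K * (1 + 8 / e) + B) + 1 := ⟨_, rfl⟩
  have hD1 : 1 ≤ D := by
    have : 0 ≤ (2:ℝ) ^ (1 + e) * (K * (1 + 8 / e) + B) := by positivity
    linarith
  rw [← hD] at hTD
  have hT11 : 1 ≤ T + 1 := by linarith
  have hl2 : Real.log (T + 1) ≤ Real.log T + 1 / T := by
    have e1 : T + 1 = T * (1 + 1 / T) := by field_simp
    rw [e1, Real.log_mul hTp.ne' (by positivity)]
    have := Real.log_le_sub_one_of_pos (show 0 < 1 + 1 / T by positivity)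
    linarith
  have hTc : (T + 1) ^ c ≤ 2 ^ (1 + e) * T ^ c := by
    have e1 : T + 1 = ((T + 1) / T) * T := by field_simp
    have h1 : 1 ≤ (T + 1) / T := by rw [one_le_div hTp]; linarith
    have h2 : (T + 1) / T ≤ 2 := by rw [div_le_iff₀ hTp]; linarith
    have h3 : (T + 1) ^ c = ((T + 1) / T) ^ c * T ^ c := by
      rw [← Real.mul_rpow (by positivity) hTp.le, ← e1]
    rw [h3]
    have h4 : ((T + 1) / T) ^ c ≤ ((T + 1) / T) ^ (1 + e) := Real.rpow_le_rpow_of_exponent_le h1 hc2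
    have h5 : ((T + 1) / T) ^ (1 + e) ≤ 2 ^ (1 + e) := Real.rpow_le_rpow (by linarith) h2 (by linarith)
    exact mul_le_mul_of_nonneg_right (h4.trans h5) (Real.rpow_nonneg hTp.le _)
  have hlogb : K * 1 * Real.log (T + 1) + B ≤ (K * (1 + 8 / e) + B) * T ^ (e / 8) := by
    have h1 : Real.log T ≤ T ^ (e / 8) / (e / 8) := Real.log_le_rpow_div hTp.le (by positivity)
    have h2 : 1 ≤ T ^ (e / 8) := Real.one_le_rpow hT1 (by positivity)
    have h3 : 1 / T ≤ 1 := by rw [div_le_one hTp]; exact hT1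
    have h5 : T ^ (e / 8) / (e / 8) = 8 / e * T ^ (e / 8) := by field_simp
    have h4 : Real.log (T + 1) ≤ (1 + 8 / e) * T ^ (e / 8) := by
      rw [h5] at h1
      linarith
    have h6 := mul_le_mul_of_nonneg_left h4 hK
    have h7 := mul_le_mul_of_nonneg_left h2 hB
    linarith
  have hDT : D ≤ T ^ (e / 8) := by
    have h4 : D = (D ^ (8 / e)) ^ (e / 8) := by
      rw [← Real.rpow_mul (by linarith)]
      rw [show 8 / e * (e / 8) = 1 by field_simp, Real.rpow_one]
    rw [h4]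
    exact Real.rpow_le_rpow (by positivity) hTD (by positivity)
  have hTcp : 0 < T ^ c := Real.rpow_pos_of_pos hTp _
  have hTep : 0 < T ^ (e / 8) := Real.rpow_pos_of_pos hTp _
  have s1 : (T + 1) ^ c0 ≤ 2 ^ (1 + e) * T ^ c :=
    (Real.rpow_le_rpow_of_exponent_le hT11 hc1).trans hTc
  have s2 : (K * 1 * Real.log (T + 1) + B) * (T + 1) ^ c0 ≤
      ((K * (1 + 8 / e) + B) * T ^ (e / 8)) * (2 ^ (1 + e) * T ^ c) :=
    mul_le_mul hlogb s1 (Real.rpow_nonneg (by linarith) _) (by positivity)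
  have s3 : ((K * (1 + 8 / e) + B) * T ^ (e / 8)) * (2 ^ (1 + e) * T ^ c) ≤ D * (T ^ (e / 8) * T ^ c) := by
    have : ((K * (1 + 8 / e) + B) * T ^ (e / 8)) * (2 ^ (1 + e) * T ^ c) =
      (D - 1) * (T ^ (e / 8) * T ^ c) := by rw [hD]; ring
    rw [this]
    exact mul_le_mul_of_nonneg_right (by linarith) (by positivity)
  have s4 : D * (T ^ (e / 8) * T ^ c) ≤ T ^ (e / 8) * (T ^ (e / 8) * T ^ c) :=
    mul_le_mul_of_nonneg_right hDT (by positivity)
  have s5 : T ^ (e / 8) * (T ^ (e / 8) * T ^ c) = T ^ (c + e / 4) := by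
    rw [← Real.rpow_add hTp, ← Real.rpow_add hTp]
    congr 1
    ring
  linarith

/-- **the number of the zeros in the windows with many zeros** -/
theorem cnt_zeros (k : ℕ) (hk : 1 ≤ k) (hyp : HypK k) (e : ℝ) (he : 0 < e) :
    ∃ H0 : ℝ, 1 ≤ H0 ∧ ∀ H : ℝ, H0 ≤ H → ∃ T0 : ℝ, 1 ≤ T0 ∧ ∀ T : ℝ, T0 ≤ T →
      ∀ σ η : ℝ, 1 / 2 ≤ σ → σ ≤ 1 → 0 ≤ η → ∀ S : Finset ℂ,
        (∀ ρ ∈ S, riemannZeta ρ = 0 ∧ σ ≤ ρ.re ∧ 2 ≤ ρ.im ∧ ρ.im ≤ T ∧ η * H * Real.log T ≤ N σ ρ.im H) →
        ∑ ρ ∈ S, (analyticOrderNatAt riemannZeta ρ : ℝ) ≤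
          T ^ (1 - 2 * Real.pi * k * η * (2 * σ - 1) + e) := by
  classical
  obtain ⟨K1, hK1, hcnt1⟩ := N_cnt
  obtain ⟨K2, hK2, hcnt2⟩ := p_cnt
  obtain ⟨B1, hB1, hb1⟩ := hcnt2 1 le_rfl
  obtain ⟨H0, hH0, hmeas⟩ := meas_N k hk hyp (e / 4) (by positivity)
  have hpi := Real.pi_pos
  have hk0 : (0:ℝ) < k := by exact_mod_cast hk
  set Q : ℝ := 2 * Real.pi * k * (K1 + 1) with hQ
  have hQ0 : 0 < Q := by positivity
  refine ⟨max H0 (8 * Q / e), hH0.trans (le_max_left _ _), fun H hH => ?_⟩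
  have hHH0 : H0 ≤ H := (le_max_left _ _).trans hH
  have hHQ : 8 * Q / e ≤ H := (le_max_right _ _).trans hH
  have hH1 : 1 ≤ H := hH0.trans hHH0
  obtain ⟨B, hB, hbB⟩ := hcnt1 H hH1
  obtain ⟨T0, hT0, hmT⟩ := hmeas (H + 1) (by linarith)
  set D : ℝ := 2 ^ (1 + e) * (K2 * (1 + 8 / e) + B1) + 1 with hD
  have hD1 : 1 ≤ D := by
    have : 0 ≤ (2:ℝ) ^ (1 + e) * (K2 * (1 + 8 / e) + B1) := by positivity
    linarith
  refine ⟨max (max T0 (Real.exp (B + 1))) (max (8 * Q / e) (D ^ (8 / e))),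
    hT0.trans ((le_max_left _ _).trans (le_max_left _ _)), fun T hT σ η hσ hσ1 hη S hS => ?_⟩
  have hTT0 : T0 ≤ T := ((le_max_left _ _).trans (le_max_left _ _)).trans hT
  have hTB : Real.exp (B + 1) ≤ T := ((le_max_right _ _).trans (le_max_left _ _)).trans hT
  have hTQ : 8 * Q / e ≤ T := ((le_max_left _ _).trans (le_max_right _ _)).trans hT
  have hTD : D ^ (8 / e) ≤ T := ((le_max_right _ _).trans (le_max_right _ _)).trans hT
  have hT1 : 1 ≤ T := hT0.trans hTT0
  have hTp : 0 < T := by linarith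
  have hlogT : B + 1 ≤ Real.log T := by rwa [Real.le_log_iff_exp_le hTp]
  have hrhs : 0 ≤ T ^ (1 - 2 * Real.pi * k * η * (2 * σ - 1) + e) := Real.rpow_nonneg hTp.le _
  rcases S.eq_empty_or_nonempty with hSe | ⟨ρ0, hρ0⟩
  · rw [hSe, Finset.sum_empty]; exact hrhs
  -- η is bounded
  have hηK : η ≤ K1 + 1 := by
    by_contra hc
    push Not at hc
    obtain ⟨-, -, h3, h4, h5⟩ := hS ρ0 hρ0
    have h6 := hbB ρ0.im (by linarith) σ hσ
    have h7 : Real.log ρ0.im ≤ Real.log T := Real.log_le_log (by linarith) h4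
    have h8 : η * H * Real.log T ≤ K1 * H * Real.log T + B := by
      refine h5.trans (h6.trans ?_)
      gcongr
    have hlog0 : 0 ≤ Real.log T := Real.log_nonneg hT1
    have h9 : (K1 + 1) * H * Real.log T ≤ η * H * Real.log T := by gcongr
    have h10 : Real.log T ≤ H * Real.log T := by nlinarith
    nlinarith
  set T1 : ℝ := T + 1 with hT1'
  have hT11 : 1 ≤ T1 := by linarith
  have hT1p : 0 < T1 := by linarith
  have hl : Real.log T ≤ Real.log T1 := Real.log_le_log hTp (by linarith)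
  have hl1 : 1 ≤ Real.log T1 := by linarith
  have hl2 : Real.log T1 ≤ Real.log T + 1 / T := by
    have e1 : T1 = T * (1 + 1 / T) := by rw [hT1']; field_simp
    rw [e1, Real.log_mul hTp.ne' (by positivity)]
    have := Real.log_le_sub_one_of_pos (show 0 < 1 + 1 / T by positivity)
    linarith
  set η' : ℝ := η * (H * Real.log T / ((H + 1) * Real.log T1)) with hη'
  have hfrac : 1 - H * Real.log T / ((H + 1) * Real.log T1) ≤ 1 / (H + 1) + 1 / T := by
    have h1 : (0:ℝ) < (H + 1) * Real.log T1 := by positivity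
    rw [sub_le_iff_le_add, ← sub_le_iff_le_add', le_div_iff₀ h1]
    have h2 : 1 - (1 / (H + 1) + 1 / T) = H / (H + 1) - 1 / T := by
      field_simp
      ring
    rw [h2]
    have h3 : (H / (H + 1) - 1 / T) * ((H + 1) * Real.log T1) =
        H * Real.log T1 - (H + 1) / T * Real.log T1 := by
      field_simp
    rw [h3]
    have h4 : H * Real.log T1 ≤ H * Real.log T + H / T := by
      calc H * Real.log T1 ≤ H * (Real.log T + 1 / T) := by gcongr
        _ = _ := by ring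
    have h5 : H / T ≤ (H + 1) / T * Real.log T1 := by
      calc H / T ≤ (H + 1) / T * 1 := by
            rw [mul_one]
            gcongr
            linarith
        _ ≤ _ := by gcongr
    linarith
  have hdiff : 2 * Real.pi * k * (η - η') * (2 * σ - 1) ≤ e / 4 := by
    have h1 : η - η' = η * (1 - H * Real.log T / ((H + 1) * Real.log T1)) := by rw [hη']; ring
    have h2 : 1 / (H + 1) ≤ e / (8 * Q) := by
      rw [div_le_div_iff₀ (by positivity) (by positivity)]
      rw [div_le_iff₀ he] at hHQ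
      nlinarith
    have h3 : 1 / T ≤ e / (8 * Q) := by
      rw [div_le_div_iff₀ hTp (by positivity)]
      rw [div_le_iff₀ he] at hTQ
      nlinarith
    have h4 : η - η' ≤ (K1 + 1) * (e / (8 * Q) + e / (8 * Q)) := by
      rw [h1]
      calc η * (1 - H * Real.log T / ((H + 1) * Real.log T1)) ≤ η * (e / (8 * Q) + e / (8 * Q)) := by
            gcongr
            linarith
        _ ≤ _ := by gcongr
    have h5 : 2 * Real.pi * k * (η - η') ≤ e / 4 := by
      calc 2 * Real.pi * k * (η - η') ≤ 2 * Real.pi * k * ((K1 + 1) * (e / (8 * Q) + e / (8 * Q))) := by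
            gcongr
        _ = e / 4 := by rw [hQ]; field_simp; ring
    have h6 : 0 ≤ η - η' := by
      rw [h1]
      refine mul_nonneg hη (sub_nonneg.2 ?_)
      rw [div_le_one (by positivity)]
      have := Real.log_nonneg hT1
      nlinarith
    calc 2 * Real.pi * k * (η - η') * (2 * σ - 1) ≤ 2 * Real.pi * k * (η - η') * 1 := by
          gcongr
          linarith
      _ ≤ _ := by linarith
  -- the set
  set E : Set ℝ := {t : ℝ | 1 ≤ t ∧ t ≤ T1 ∧ η' * (H + 1) * Real.log T1 ≤ N σ t (H + 1)} with hE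
  have hthr : η' * (H + 1) * Real.log T1 = η * H * Real.log T := by
    rw [hη']
    field_simp
  have hM0 : 0 ≤ K2 * 1 * Real.log T1 + B1 := by positivity
  have hcou := p_cou S (analyticOrderNatAt riemannZeta) (K2 * 1 * Real.log T1 + B1) E hM0
    (by
      intro ρ hρ t ht
      obtain ⟨_, h2, h3, h4, h5⟩ := hS ρ hρ
      obtain ⟨h6, h7⟩ := abs_le.1 ht
      refine ⟨by linarith, by linarith, ?_⟩
      rw [hthr]
      refine h5.trans (N_mono ?_)
      rw [abs_sub_comm]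
      linarith)
    (by
      intro t
      rcases (S.filter (fun ρ => |t - ρ.im| ≤ 1 / 2)).eq_empty_or_nonempty with h0 | ⟨ρ, hρ⟩
      · rw [h0, Finset.sum_empty]; exact hM0
      · rw [Finset.mem_filter] at hρ
        obtain ⟨_, h2, h3, h4, h5⟩ := hS ρ hρ.1
        obtain ⟨h6, h7⟩ := abs_le.1 hρ.2
        have ht1 : 1 ≤ t := by linarith
        refine (hb1 t ht1 _ fun ρ' hρ' => ?_).trans ?_
        · rw [Finset.mem_filter] at hρ'
          obtain ⟨g1, g2, _, _, _⟩ := hS ρ' hρ'.1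
          refine ⟨g1, by linarith, ?_, ?_⟩
          · by_contra hc
            exact riemannZeta_ne_zero_of_one_le_re (not_lt.1 hc) g1
          · rw [abs_sub_comm]; exact hρ'.2
        · have : Real.log t ≤ Real.log T1 := Real.log_le_log (by linarith) (by linarith)
          gcongr)
  have hvol := hmT T1 (by linarith) σ η' hσ
  have hfin : ENNReal.ofReal (∑ ρ ∈ S, (analyticOrderNatAt riemannZeta ρ : ℝ)) ≤
      ENNReal.ofReal ((K2 * 1 * Real.log T1 + B1) * T1 ^ (1 - 2 * Real.pi * k * η' * (2 * σ - 1) + e / 4)) := by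
    rw [ENNReal.ofReal_mul hM0]
    exact hcou.trans (mul_le_mul_right hvol _)
  rw [ENNReal.ofReal_le_ofReal_iff (by positivity)] at hfin
  refine hfin.trans ?_
  set c : ℝ := 1 - 2 * Real.pi * k * η * (2 * σ - 1) + e / 2 with hc
  have hc1 : 1 - 2 * Real.pi * k * η' * (2 * σ - 1) + e / 4 ≤ c := by
    have : 2 * Real.pi * k * η * (2 * σ - 1) - 2 * Real.pi * k * η' * (2 * σ - 1) =
      2 * Real.pi * k * (η - η') * (2 * σ - 1) := by ring
    rw [hc]; linarith
  have hc2 : c ≤ 1 + e := by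
    have : 0 ≤ 2 * Real.pi * k * η * (2 * σ - 1) := by
      have : 0 ≤ 2 * σ - 1 := by linarith
      positivity
    rw [hc]; linarith
  refine (final_cmp he hK2 hB1 hT1 (by rw [← hD]; exact hTD) hc2 hc1).trans ?_
  apply Real.rpow_le_rpow_of_exponent_le hT1
  rw [hc]; linarith

end

end Pool.Agent.Y757.HW
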